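import Pool.Agent.T6.H4.Cusp.Dyn

set_option autoImplicit false

/-!
# The exterior map of the Mandelbrot set at the cusp `1 / 4`

Asymptotics of the exterior conformal map `ψ` of the Mandelbrot set (and of its derivative and its
Laurent coefficients) at the cusp `1 / 4 = ψ (1)` of the main cardioid, with the exact
log-periodic oscillation, the maximal size of the Green function near the cusp and the width of
the complement of `M` there.
-/

namespace Pool.Agent.Results.MP_c6f924_an.CuspExpansion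

open Complex Metric Set Filter Topology Pool.Agent.H712R2 Pool.Agent.H713R2 N62a1eb23
open Pool.Agent.T6.H4.Cusp

theorem result :
    -- an exterior map and its Laurent coefficients exist
    (∃ (ψ : ℂ → ℂ) (b : ℕ → ℂ), IsExteriorMap (multibrotSet 2) ψ ∧ HasLaurent ψ b) ∧
    ∃ Θ L Ψ : ℂ → ℂ,
      -- `Θ` is holomorphic and `1`-periodic on a strip, real, with `1 + Θ' > 0`, and not constant
      -- on the real line
      DifferentiableOn ℂ Θ {X : ℂ | |X.im| < Real.pi / (2 * Real.log 2)} ∧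
      (∀ X : ℂ, |X.im| < Real.pi / (2 * Real.log 2) → Θ (X + 1) = Θ X) ∧
      (∀ x : ℝ, (Θ (x : ℂ)).im = 0 ∧ 0 < 1 + (deriv Θ (x : ℂ)).re) ∧
      (∃ x y : ℝ, Θ (x : ℂ) ≠ Θ (y : ℂ)) ∧
      -- its dynamical description
      (Differentiable ℂ L ∧ (∀ s : ℂ, L (s + 1) = L s ^ 2 + 1 / 4) ∧
        TendstoLocallyUniformly (fun (N : ℕ) (s : ℂ) =>
          P 2 N (1 / 4 + (Real.pi : ℂ) ^ 2 / ((N : ℂ) - s) ^ 2)) L atTop ∧
        DifferentiableOn ℂ Ψ {w : ℂ | 1 < ‖w‖} ∧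
        (∀ w : ℂ, 1 < ‖w‖ → Ψ (w ^ 2) = Ψ w ^ 2 + 1 / 4 ∧ ‖Ψ w - w‖ ≤ 3) ∧
        ∀ X : ℂ, |X.im| < Real.pi / (2 * Real.log 2) →
          L (-X - Θ X) = Ψ (Complex.exp (Complex.exp (-(X * Real.log 2)) / 2))) ∧
      ∀ (ψ : ℂ → ℂ) (b : ℕ → ℂ), IsExteriorMap (multibrotSet 2) ψ → HasLaurent ψ b →
        -- the exterior map in Stolz angles
        (∀ κ : ℝ, Tendsto (fun t : ℂ =>
            (Real.pi : ℂ) / (ψ (Complex.exp t) - 1 / 4) ^ (1 / 2 : ℂ) -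
              (-Complex.log t / Real.log 2) - Θ (-Complex.log t / Real.log 2))
          (𝓝[{t : ℂ | 0 < t.re ∧ |t.im| ≤ κ * t.re}] 0) (𝓝 0)) ∧
        -- its derivative in Stolz angles
        (∀ κ : ℝ, 0 ≤ κ → Tendsto (fun t : ℂ =>
            (-Complex.log t) ^ 3 * (t * deriv ψ (Complex.exp t)) -
              2 * (Real.pi * Real.log 2 : ℂ) ^ 2 *
                (1 + deriv Θ (-Complex.log t / Real.log 2)))
          (𝓝[{t : ℂ | 0 < t.re ∧ |t.im| ≤ κ * t.re}] 0) (𝓝 0)) ∧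
        -- the Abel sums of the coefficients
        Tendsto (fun s : ℝ =>
            Real.pi / √(3 / 4 + ∑' m : ℕ, (b m).re * Real.exp (-(m * s))) -
              (-Real.log s / Real.log 2) - (Θ ((-Real.log s / Real.log 2 : ℝ) : ℂ)).re)
          (𝓝[>] 0) (𝓝 0) ∧
        Tendsto (fun s : ℝ =>
            -(s * |Real.log s| ^ 3 * ∑' m : ℕ, m * (b m).re * Real.exp (-(m * s))) -
              2 * (Real.pi * Real.log 2) ^ 2 *
                (1 + (deriv Θ ((-Real.log s / Real.log 2 : ℝ) : ℂ)).re))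
          (𝓝[>] 0) (𝓝 0) ∧
        -- the maximum of the Green function near the cusp, in all directions
        (∀ w : ℂ, 1 < ‖w‖ → ‖ψ w - 1 / 4‖ ≤ 1 →
          Real.log ‖w‖ ≤ Real.exp (36 - Real.pi * Real.log 2 / √‖ψ w - 1 / 4‖)) ∧
        -- the width of the complement of `M` at the cusp
        (∃ c₀ C₀ ε₀ : ℝ, 0 < c₀ ∧ 0 < C₀ ∧ 0 < ε₀ ∧ ∀ ε : ℝ, 0 < ε → ε < ε₀ →
          c₀ * √ε ^ 3 ≤ infDist ((1 / 4 + ε : ℝ) : ℂ) (multibrotSet 2) ∧
            infDist ((1 / 4 + ε : ℝ) : ℂ) (multibrotSet 2) ≤ C₀ * √ε ^ 3) := by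
  obtain ⟨β, hβ⟩ := exists_beta (d := 2) le_rfl
  have hψ0 := exteriorMap_of_beta hβ
  obtain ⟨χ, hχ⟩ := exists_lim hψ0
  obtain ⟨L, l, hL⟩ := exists_lav
  refine ⟨⟨_, _, hψ0, laurent_of_beta hβ⟩, Th χ, L, Ps χ L, Th_diff hχ,
    fun X hX => Th_per hχ hX, fun x => ⟨Th_im hχ hψ0 x, Th_deriv_pos hχ hψ0 x⟩,
    Th_nonconst hχ hψ0, ⟨hL.diff, hL.fe, hL.lim, Ps_diff hχ hψ0 hL,
      fun w hw => ⟨Ps_fe hχ hψ0 hL hw, Ps_near hχ hψ0 hL hw⟩,
      fun X hX => Ps_Th hχ hψ0 hL hX⟩, fun ψ b hψ hb => ?_⟩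
  have h := hχ.congr hψ0 hψ
  exact ⟨fun κ => stolz1 h κ, fun κ hκ => stolz2 h hψ hκ, abel_lim0 h hψ hb, abel_lim1 h hψ hb,
    fun w hw h1 => green_max hψ hw h1, width⟩

end Pool.Agent.Results.MP_c6f924_an.CuspExpansion
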