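import Mathlib
import Pool.Prelude.Def_F_c31e40fa
import Pool.Agent.H713R2.Main4
import Pool.Agent.T6.H50.LC.Main

set_option autoImplicit false

open Complex Topology Filter Metric N62a1eb23

namespace Pool.Agent.Results.MP_c6f924_an.LaurentNotLittleO

open Pool.Agent.H712R2 Pool.Agent.H713R2

/-- The Laurent coefficients `b_m` of the exterior conformal map of the Mandelbrot set are not
`o(1/m)`. More precisely, there is `c > 0` such that for every `K` there is `J` with the following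
property: for every large `N = 4 ^ k` either `m |b_m| ≥ c` for some `m` at distance at most `J`
from `N`, or `m |b_m| ≥ K` for some `m` in the window `|m - N| ≤ ε N` (`ε > 0` arbitrary).
Consequently the maximum of `m |b_m|` over `M ≤ m ≤ 5 M` stays above a positive constant. -/
theorem result :
    (∃ (ψ : ℂ → ℂ) (b : ℕ → ℂ), IsExteriorMap mandelbrotSet ψ ∧ HasLaurent ψ b) ∧
    ∀ (ψ : ℂ → ℂ) (b : ℕ → ℂ), IsExteriorMap mandelbrotSet ψ → HasLaurent ψ b →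
      (∃ c : ℝ, 0 < c ∧ ∀ K : ℝ, ∃ J : ℕ, ∀ ε : ℝ, 0 < ε → ∀ᶠ k : ℕ in atTop,
        (∃ m : ℕ, |(m : ℝ) - 4 ^ k| ≤ J ∧ c ≤ (m : ℝ) * ‖b m‖) ∨
        (∃ m : ℕ, |(m : ℝ) - 4 ^ k| ≤ ε * 4 ^ k ∧ K ≤ (m : ℝ) * ‖b m‖)) ∧
      (∃ c : ℝ, 0 < c ∧ ∀ᶠ M : ℕ in atTop, ∃ m : ℕ, M ≤ m ∧ m ≤ 5 * M ∧
        c ≤ (m : ℝ) * ‖b m‖) ∧
      ¬ Tendsto (fun m : ℕ => (m : ℝ) * ‖b m‖) atTop (𝓝 0) := by
  obtain ⟨β, hβ⟩ := exists_beta (d := 2) le_rfl
  refine ⟨⟨_, _, exteriorMap_of_beta hβ, laurent_of_beta hβ⟩, ?_⟩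
  intro ψ b hψ hb
  have h1 := exterior_coeff hβ hψ hb
  obtain ⟨c, hc, h2⟩ := Pool.Agent.T6.H50.LC.main hβ
  have hdouble : Tendsto (fun k : ℕ => 2 * k) atTop atTop :=
    tendsto_id.const_mul_atTop' (by norm_num)
  have hmain : ∀ K : ℝ, ∃ J : ℕ, ∀ ε : ℝ, 0 < ε → ∀ᶠ k : ℕ in atTop,
      (∃ m : ℕ, |(m : ℝ) - 4 ^ k| ≤ J ∧ c ≤ (m : ℝ) * ‖b m‖) ∨
      (∃ m : ℕ, |(m : ℝ) - 4 ^ k| ≤ ε * 4 ^ k ∧ K ≤ (m : ℝ) * ‖b m‖) := by
    intro K
    obtain ⟨J, hJ⟩ := h2 K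
    refine ⟨J, fun ε hε => ?_⟩
    filter_upwards [hdouble.eventually (hJ ε hε)] with k hk
    have h4 : (4 : ℝ) ^ k = 2 ^ (2 * k) := by rw [pow_mul]; norm_num
    simp only [h1, h4]
    exact hk (even_two_mul k)
  have hblock : ∃ c : ℝ, 0 < c ∧ ∀ᶠ M : ℕ in atTop, ∃ m : ℕ, M ≤ m ∧ m ≤ 5 * M ∧
      c ≤ (m : ℝ) * ‖b m‖ := by
    refine ⟨c, hc, ?_⟩
    obtain ⟨J, hJ⟩ := hmain c
    obtain ⟨k₀, hk₀⟩ := eventually_atTop.1 (hJ (1 / 40) (by norm_num))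
    obtain ⟨k₁, hk₁⟩ : ∃ k₁ : ℕ, 40 * (J : ℝ) ≤ 4 ^ k₁ := by
      obtain ⟨k₁, h⟩ := pow_unbounded_of_one_lt (40 * (J : ℝ)) (by norm_num : (1 : ℝ) < 4)
      exact ⟨k₁, h.le⟩
    filter_upwards [eventually_ge_atTop (4 ^ (k₀ + k₁ + 1))] with M hM
    have hM1 : 1 ≤ M := le_trans (Nat.one_le_pow _ _ (by norm_num)) hM
    -- choose `k` with `4 ^ k` between `(11 / 10) M` and `(44 / 10) M`
    obtain ⟨k, hk1, hk2⟩ : ∃ k : ℕ, 11 * M ≤ 10 * 4 ^ k ∧ 10 * 4 ^ k ≤ 44 * M := by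
      have hex : ∃ k : ℕ, 11 * M ≤ 10 * 4 ^ k := by
        obtain ⟨k, hk⟩ := pow_unbounded_of_one_lt (11 * M) (by norm_num : 1 < 4)
        exact ⟨k, by omega⟩
      classical
      refine ⟨Nat.find hex, Nat.find_spec hex, ?_⟩
      rcases Nat.eq_zero_or_pos (Nat.find hex) with h0 | h0
      · rw [h0]; omega
      · have h3 := Nat.find_min hex (m := Nat.find hex - 1) (by omega)
        have h4 : 4 ^ (Nat.find hex) = 4 * 4 ^ (Nat.find hex - 1) := by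
          rw [← pow_succ', Nat.sub_add_cancel h0]
        omega
    have hkk : k₀ + k₁ + 1 ≤ k := by
      by_contra hcon
      push Not at hcon
      have h3 : 4 ^ k * 4 ≤ 4 ^ (k₀ + k₁ + 1) := by
        rw [← pow_succ]
        exact Nat.pow_le_pow_right (by norm_num) hcon
      omega
    have hk1' : 11 * (M : ℝ) ≤ 10 * 4 ^ k := by exact_mod_cast hk1
    have hk2' : 10 * (4 : ℝ) ^ k ≤ 44 * M := by exact_mod_cast hk2
    have hJk : 40 * (J : ℝ) ≤ 4 ^ k :=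
      hk₁.trans (pow_le_pow_right₀ (by norm_num) (by omega))
    rcases hk₀ k (by omega) with ⟨m, hm1, hm2⟩ | ⟨m, hm1, hm2⟩
    · rw [abs_le] at hm1
      refine ⟨m, ?_, ?_, hm2⟩
      · have : (M : ℝ) ≤ m := by linarith [hm1.1]
        exact_mod_cast this
      · have : (m : ℝ) ≤ 5 * M := by linarith [hm1.2]
        exact_mod_cast this
    · rw [abs_le] at hm1
      refine ⟨m, ?_, ?_, hm2⟩
      · have : (M : ℝ) ≤ m := by linarith [hm1.1]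
        exact_mod_cast this
      · have : (m : ℝ) ≤ 5 * M := by linarith [hm1.2]
        exact_mod_cast this
  refine ⟨⟨c, hc, hmain⟩, hblock, ?_⟩
  intro ht
  obtain ⟨c', hc', hb'⟩ := hblock
  obtain ⟨M₀, hM₀⟩ := eventually_atTop.1 (ht.eventually (gt_mem_nhds hc'))
  obtain ⟨M, ⟨m, hm1, -, hm3⟩, hM⟩ := (hb'.and (eventually_ge_atTop M₀)).exists
  have := hM₀ m (by omega)
  linarith

end Pool.Agent.Results.MP_c6f924_an.LaurentNotLittleO
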