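import Mathlib
import Pool.Prelude.Def_F_c31e40fa
import Pool.Agent.T6.H93.MLC.Conv

set_option autoImplicit false

open Filter Topology Set Metric Complex N62a1eb23

namespace Pool.Agent.Results.MP_c6f924_an.SlowParameters

open Pool.Agent.H713R2

/-- The point `f_c^n (0)` of the critical orbit of `f_c (z) = z ^ 2 + c`. As a function of `c` it is
a monic polynomial with integer coefficients, of degree `2 ^ (n - 1)` if `n ≥ 1`. -/
def P (n : ℕ) (c : ℂ) : ℂ := (fun z : ℂ => z ^ 2 + c)^[n] 0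

/-- `K` is locally connected at `c` in the weak sense (connected im kleinen): the points of `K`
close to `c` are joined to `c` by small connected subsets of `K`. -/
def LocallyConnectedAt (K : Set ℂ) (c : ℂ) : Prop :=
  ∀ ε : ℝ, 0 < ε → ∃ δ : ℝ, 0 < δ ∧ ∀ q ∈ K, dist q c < δ →
    ∃ C ⊆ K ∩ ball c ε, IsPreconnected C ∧ c ∈ C ∧ q ∈ C

/-- Slow parameters. There is `ε > 0` such that for every summable sequence `τ` and every `δ > 0`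
there is an external ray `{ψ (t ζ) : t > 1}` whose part of level less than `1 + δ` contains: a point
`ψ (s ζ)` in the disc `ball c δ`, a point `ψ (t ζ)` outside of the disc `ball c ε`, and a point
`z = ψ (u ζ)` in `ball c δ` with `|P_n (z)| = 3` and `|P_n' (z)| < 1 / τ n` for some `n`. -/
def Slow (ψ : ℂ → ℂ) (c : ℂ) : Prop :=
  ∃ ε : ℝ, 0 < ε ∧ ∀ τ : ℕ → ℝ, Summable τ → ∀ δ : ℝ, 0 < δ →
    ∃ ζ : ℂ, ‖ζ‖ = 1 ∧ ∃ s ∈ Ioo 1 (1 + δ), ∃ t ∈ Ioo 1 (1 + δ), ∃ u ∈ Ioo 1 (1 + δ),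
      dist (ψ (s * ζ)) c < δ ∧ ε ≤ dist (ψ (t * ζ)) c ∧ dist (ψ (u * ζ)) c < δ ∧
      ∃ n : ℕ, ‖P n (ψ (u * ζ))‖ = 3 ∧ τ n * ‖deriv (P n) (ψ (u * ζ))‖ < 1

/-- Fast parameters. There are a neighbourhood of `c` and a summable sequence `τ` such that
`|P_n' (a)| ≥ 1 / τ n` for all large `n` and all `a` in the neighbourhood with `P_n (a) = 3`. -/
def Fast (c : ℂ) : Prop :=
  ∃ δ : ℝ, 0 < δ ∧ ∃ τ : ℕ → ℝ, Summable τ ∧ ∀ᶠ n in atTop, ∀ a ∈ ball c δ, P n a = 3 →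
    1 ≤ τ n * ‖deriv (P n) a‖

/-- **Slow parameters and the local connectivity of the Mandelbrot set.** -/
theorem result :
    (∃ ψ : ℂ → ℂ, IsExteriorMap mandelbrotSet ψ) ∧
    (∀ ψ : ℂ → ℂ, IsExteriorMap mandelbrotSet ψ →
      (∀ c ∈ mandelbrotSet, ¬ LocallyConnectedAt mandelbrotSet c → Slow ψ c) ∧
      (LocallyConnectedSpace mandelbrotSet ↔ ∀ c ∈ mandelbrotSet, ¬ Slow ψ c)) ∧
    (∀ c ∈ mandelbrotSet, Fast c →
      ∃ r : ℝ, 0 < r ∧ LocallyConnectedSpace ↥(mandelbrotSet ∩ ball c r)) ∧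
    (∀ C s : ℝ, 0 < C → 1 < s →
      (∀ᶠ n : ℕ in atTop, ∀ a : ℂ, P n a = 3 → C * (n : ℝ) ^ s ≤ ‖deriv (P n) a‖) →
      LocallyConnectedSpace mandelbrotSet) := by
  obtain ⟨β, hβ⟩ := exists_beta (d := 2) le_rfl
  have hslow : ∀ ψ : ℂ → ℂ, IsExteriorMap mandelbrotSet ψ → ∀ c ∈ mandelbrotSet,
      ¬ LocallyConnectedAt mandelbrotSet c → Slow ψ c := by
    intro ψ hψ c hc hn
    obtain ⟨ε, hε, h⟩ := Pool.Agent.T6.H93.MLC.slow_of_not_cik hψ hc hn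
    refine ⟨ε, hε, fun τ hτ δ hδ => ?_⟩
    obtain ⟨ζ, hζ, s, t, u, n, -, hs, ht, hu, h1, h2, h3, h4, h5⟩ := h τ hτ 0 δ hδ
    exact ⟨ζ, hζ, s, hs, t, ht, u, hu, h1, h2, h3, n, h4, h5⟩
  refine ⟨⟨_, exteriorMap_of_beta hβ⟩, fun ψ hψ => ⟨hslow ψ hψ, ?_, ?_⟩, ?_, ?_⟩
  · intro hl c hc hs
    have hl' := Pool.Agent.R240.Loc.lcs_iff.1 hl
    obtain ⟨ε, hε, h⟩ := hs
    obtain ⟨δ, hδ, h1⟩ := Pool.Agent.T6.H93.MLC.no_osc hψ hl' hc hε
    obtain ⟨ζ, hζ, s, hs, t, ht, u, hu, h2, h3, -⟩ := h (fun _ => 0) summable_zero δ hδ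
    have := h1 ζ hζ s t hs.1 hs.2 ht.1 ht.2 h2
    linarith
  · intro h
    refine Pool.Agent.R240.Loc.lcs_iff.2 fun c hc => ?_
    by_contra hn
    exact h c hc (hslow ψ hψ c hc hn)
  · intro c _ hf
    exact Pool.Agent.T6.H93.MLC.lcs_of_fast hf
  · intro C s hC hs h
    exact Pool.Agent.T6.H93.MLC.lcs_of_pow hC hs h

end Pool.Agent.Results.MP_c6f924_an.SlowParameters
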