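import Mathlib
import Pool.Prelude.Def_F_c31e40fa
import Pool.Agent.T6.H68.Tip.Fin

set_option autoImplicit false

open Filter Topology N62a1eb23

namespace Pool.Agent.Results.MP_c6f924_an.TipExpansion

open Pool.Agent.H713R2 Pool.Agent.T6.H68.Tip

/-- The exterior conformal map `ψ` of the Mandelbrot set at the tip `-2 = ψ(-1)`:
`ψ(-exp t) = -2 - (3/2) t² - (3/(8 log 2)) t⁴ log t + O(t⁴)`, and the Abel sums of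
`(-1)^m m^k b_m` (`b` the Laurent coefficients): `-1, -1, -2, -1` for `k = 0, 1, 2, 3`, while for
`k = 4` the sum diverges like `(9 / log 2) log(1/(1-x))`. -/
theorem result :
    (∃ (ψ : ℂ → ℂ) (b : ℕ → ℂ), IsExteriorMap mandelbrotSet ψ ∧ HasLaurent ψ b) ∧
    ∀ (ψ : ℂ → ℂ) (b : ℕ → ℂ), IsExteriorMap mandelbrotSet ψ → HasLaurent ψ b →
      (∀ σ w : ℂ, 0 < σ.re → |σ.im| ≤ σ.re → ‖σ‖ ≤ (1 / 150) ^ 4 → 1 < ‖w‖ →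
        ψ w = -2 - 3 / 2 * σ ^ 2 →
        |Real.log ‖w‖ - (σ - σ ^ 3 * Complex.log σ / (8 * Real.log 2)).re| ≤ 250 * ‖σ‖ ^ 3) ∧
      (∀ (s : ℝ) (t : ℂ), 0 < s → s ≤ (1 / 200) ^ 4 → ‖t - s‖ < s / 50 →
        ‖ψ (-Complex.exp t) -
          (-2 - 3 / 2 * t ^ 2 - 3 / (8 * Real.log 2) * (t ^ 4 * Complex.log t))‖ ≤
            9000 * s ^ 4) ∧
      Tendsto (fun x : ℝ => ∑' m : ℕ, (-1) ^ m * b m * (x : ℂ) ^ m) (𝓝[<] 1) (𝓝 (-1)) ∧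
      Tendsto (fun x : ℝ => ∑' m : ℕ, (-1) ^ m * (m : ℂ) * b m * (x : ℂ) ^ m) (𝓝[<] 1) (𝓝 (-1)) ∧
      Tendsto (fun x : ℝ => ∑' m : ℕ, (-1) ^ m * (m : ℂ) ^ 2 * b m * (x : ℂ) ^ m)
        (𝓝[<] 1) (𝓝 (-2)) ∧
      Tendsto (fun x : ℝ => ∑' m : ℕ, (-1) ^ m * (m : ℂ) ^ 3 * b m * (x : ℂ) ^ m)
        (𝓝[<] 1) (𝓝 (-1)) ∧
      ∃ K : ℝ, ∀ᶠ x : ℝ in 𝓝[<] 1,
        ‖(∑' m : ℕ, (-1) ^ m * (m : ℂ) ^ 4 * b m * (x : ℂ) ^ m) -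
          ((9 / Real.log 2 * Real.log (1 / (1 - x)) : ℝ) : ℂ)‖ ≤ K := by
  obtain ⟨β, hβ⟩ := exists_beta (d := 2) le_rfl
  refine ⟨⟨_, _, exteriorMap_of_beta hβ, laurent_of_beta hβ⟩, ?_⟩
  intro ψ b hψ hb
  obtain ⟨h0, h1, h2, h3, h4⟩ := sums hψ hb
  refine ⟨?_, ?_, ?_, ?_, h2, h3, h4⟩
  · intro σ w hσ1 hσ2 hσ3 hw hwσ
    obtain ⟨w', hw', hw'2, hw'3⟩ := exists_w hψ (σ := σ) ⟨hσ1, hσ2⟩ hσ3
    have h5 : w = w' := hψ.inj hw hw' (hwσ.trans hw'2.symm)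
    rw [h5]
    exact hw'3
  · intro s t hs hs1 ht
    have h5 := psi_asym hψ hs hs1 ht
    have h6 : ψ (-Complex.exp t) -
          (-2 - 3 / 2 * t ^ 2 - 3 / (8 * Real.log 2) * (t ^ 4 * Complex.log t)) =
        ψ (-Complex.exp t) + 2 + 3 / 2 * t ^ 2 + 3 * AA * (t ^ 4 * Complex.log t) := by
      unfold AA
      push_cast
      ring
    rw [h6]
    exact h5
  · simpa only [pow_zero, mul_one] using h0
  · simpa only [pow_one] using h1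

end Pool.Agent.Results.MP_c6f924_an.TipExpansion
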